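import Pool.Agent.H335R3.ZF.Stmts
import Pool.Agent.H823R3.ZP.Frob

/-!
# Existence of Frobenius elements (task P6-FrobEx)
-/

set_option autoImplicit false

open Pool.Agent.H639R3 Pool.Agent.H335R3.ZF Pool.Agent.H823R3.ZP

namespace Pool.Agent.H211R3.ZF

/-- Frobenius elements exist (the characteristic of the constants may be any prime). -/
theorem exists_isFrob {p : ℕ} [hp : Fact p.Prime] {k K L : Type} [Field k] [Finite k]
    [Field K] [Field L] [Algebra k K] [Algebra K L] [Algebra k L] [IsScalarTower k K L]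
    (T : ZpTower p k K L) (x : ClosedPoint k K) : ∃ σ : L ≃ₐ[K] L, IsFrob x σ := by
  obtain ⟨l, hlk⟩ := CharP.exists k
  have hl : Fact l.Prime := ⟨CharP.char_is_prime k l⟩
  have := T.galois
  have hcharL : CharP L l := charP_of_injective_algebraMap (algebraMap k L).injective l
  obtain ⟨s, hs⟩ : ∃ s, Nat.card k ^ x.deg = l ^ s := by
    have : Fintype k := Fintype.ofFinite k
    obtain ⟨r, -, hr⟩ := FiniteField.card k l
    refine ⟨r * x.deg, ?_⟩
    rw [Nat.card_eq_fintype_card, hr, pow_mul]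
  obtain ⟨w, hw⟩ := ZpTower.exists_over (L := L) x
  obtain ⟨A, h1, h2, h3⟩ := exists_base T.curve x
  obtain ⟨τ, hτ1, hτ2⟩ := exists_frob_at (F := K) (A := A) l s w (by
    intro a
    have h4 := h3 _ a.2
    rw [← hw] at h4
    exact h4) (by rw [hw]; exact x.ne_top) (by
    intro a
    have h5 : (IsLocalRing.residue x.ring ⟨(a : K), h3 _ a.2⟩) ^ (Nat.card k ^ x.deg) =
      IsLocalRing.residue x.ring ⟨(a : K), h3 _ a.2⟩ := frob_fixed x (x.finite_residue T.curve) _
    rw [← map_pow, ← sub_eq_zero, ← map_sub, IsLocalRing.residue_eq_zero_iff,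
      ValuationSubring.valuation_lt_one_iff, hs] at h5
    rw [← comap_val_lt_one, hw]
    exact h5)
  refine ⟨τ, fun w' hw' => ?_⟩
  obtain ⟨z, rfl⟩ := T.exists_mv x w w' hw hw'
  have hcomm : ∀ a : L, T.aut z (τ a) = τ (T.aut z a) := by
    intro a
    rw [← T.aut_surj τ, ← T.aut_add, ← T.aut_add, add_comm]
  have hval : ∀ a : L, (T.mv z w).valuation a < 1 ↔ w.valuation (T.aut z a) < 1 := by
    intro a
    exact comap_val_lt_one w ((T.aut z : L ≃ₐ[K] L) : L →+* L) a
  constructor
  · intro a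
    rw [T.mem_mv, T.mem_mv, hcomm]
    exact hτ1 _
  · intro a ha
    rw [hs, hval, map_sub, map_pow, hcomm]
    exact hτ2 _ ha

theorem frobEx : FrobEx := fun _ _ _ _ _ _ _ _ _ _ _ _ _ T x => exists_isFrob T x

theorem taskFrobEx : TaskFrobEx := fun _ => frobEx

end Pool.Agent.H211R3.ZF
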